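import Pool.Agent.H92.EHD.TR

/-!
Board ehd_modules (MP_75a732_an), row RSH: the logarithmic mass controls the Gaussian integral.
-/

namespace Pool.Agent.H74.EHD

open scoped BigOperators ComplexConjugate ContDiff ComplexOrder
open MeasureTheory Pool.Agent.H92.EQ Pool.Agent.H92.EHD Filter Topology

noncomputable section

/-- The first radial weight. -/
def th1 (s q : ℕ) (x : ℝ) : ℝ :=
  (1 + Real.exp (2 * x)) ^ s * Real.exp (-Real.exp (2 * x)) * Real.exp (2 * x) ^ (q + 1)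

/-- The second radial weight. -/
def th2 (s q : ℕ) (x : ℝ) : ℝ := th1 s q x * (1 + |x|)

theorem th1_cont (s q : ℕ) : Continuous (th1 s q) := by
  unfold th1; fun_prop

theorem th2_cont (s q : ℕ) : Continuous (th2 s q) := by
  have := th1_cont s q
  unfold th2; fun_prop

theorem th1_nn (s q : ℕ) (x : ℝ) : 0 ≤ th1 s q x := by
  unfold th1; positivity

theorem th2_nn (s q : ℕ) (x : ℝ) : 0 ≤ th2 s q x := by
  have := th1_nn s q x
  unfold th2; positivity

theorem th1_le_th2 (s q : ℕ) (x : ℝ) : th1 s q x ≤ th2 s q x := by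
  have h := th1_nn s q x
  have h2 : (1 : ℝ) ≤ 1 + |x| := by have := abs_nonneg x; linarith
  unfold th2
  nlinarith

theorem one_add_sq_mul_exp (x : ℝ) : Real.exp (-|x|) ≤ 2 * (1 + x ^ 2)⁻¹ := by
  have h := Real.quadratic_le_exp_of_nonneg (abs_nonneg x)
  have h1 : (1 + x ^ 2) / 2 ≤ Real.exp |x| := by
    have h2 : |x| ^ 2 = x ^ 2 := sq_abs x
    have h3 := abs_nonneg x
    nlinarith
  have hp : 0 < 1 + x ^ 2 := by positivity
  rw [Real.exp_neg]
  have h4 : (Real.exp |x|)⁻¹ ≤ ((1 + x ^ 2) / 2)⁻¹ := inv_anti₀ (by positivity) h1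
  refine h4.trans (le_of_eq ?_)
  rw [inv_div]
  ring

theorem th2_le (s q : ℕ) : ∃ K : ℝ, 0 < K ∧ ∀ x, th2 s q x ≤ K * (1 + x ^ 2)⁻¹ := by
  set n := s + q + 3 with hn
  refine ⟨2 * (2 ^ s + (n.factorial : ℝ) * Real.exp 1), by positivity, fun x => ?_⟩
  have key : th2 s q x ≤ (2 ^ s + (n.factorial : ℝ) * Real.exp 1) * Real.exp (-|x|) := by
    rcases le_total x 0 with hx | hx
    · -- negative `x`
      have hu1 : Real.exp (2 * x) ≤ 1 := by
        rw [Real.exp_le_one_iff]; linarith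
      have hu0 : 0 < Real.exp (2 * x) := Real.exp_pos _
      have h1 : (1 + Real.exp (2 * x)) ^ s ≤ 2 ^ s :=
        pow_le_pow_left₀ (by positivity) (by linarith) s
      have h2 : Real.exp (-Real.exp (2 * x)) ≤ 1 := by
        rw [Real.exp_le_one_iff]; linarith
      have h3 : Real.exp (2 * x) ^ (q + 1) ≤ Real.exp (2 * x) :=
        pow_le_of_le_one hu0.le hu1 (by omega)
      have h4 : 1 + |x| ≤ Real.exp (-x) := by
        rw [abs_of_nonpos hx]
        have := Real.add_one_le_exp (-x)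
        linarith
      have e1 : th1 s q x ≤ 2 ^ s * 1 * Real.exp (2 * x) := by
        unfold th1
        gcongr
      have e2 : th2 s q x ≤ (2 ^ s * 1 * Real.exp (2 * x)) * Real.exp (-x) := by
        unfold th2
        have := th1_nn s q x
        gcongr
      have e3 : (2 ^ s * 1 * Real.exp (2 * x)) * Real.exp (-x) = 2 ^ s * Real.exp (-|x|) := by
        rw [abs_of_nonpos hx, mul_one, mul_assoc, ← Real.exp_add]
        congr 2
        ring
      rw [e3] at e2
      refine e2.trans ?_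
      have h5 : (0 : ℝ) ≤ (n.factorial : ℝ) * Real.exp 1 := by positivity
      have h6 := Real.exp_pos (-|x|)
      nlinarith
    · have hu0 : 0 < Real.exp (2 * x) := Real.exp_pos _
      have hux : Real.exp x ≤ Real.exp (2 * x) := Real.exp_le_exp.2 (by linarith)
      have hx1 : 1 + |x| ≤ 1 + Real.exp (2 * x) := by
        rw [abs_of_nonneg hx]
        have := Real.add_one_le_exp x
        linarith
      have h1 : th2 s q x ≤ (1 + Real.exp (2 * x)) ^ s * Real.exp (-Real.exp (2 * x)) *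
          (1 + Real.exp (2 * x)) ^ (q + 1) * (1 + Real.exp (2 * x)) := by
        unfold th2 th1
        gcongr
        linarith
      have h2 : (1 + Real.exp (2 * x)) ^ n / (n.factorial : ℝ) ≤
          Real.exp (1 + Real.exp (2 * x)) :=
        Real.pow_div_factorial_le_exp _ (by positivity) n
      have hf : (0 : ℝ) < (n.factorial : ℝ) := by positivity
      rw [div_le_iff₀ hf] at h2
      have h3 : (1 + Real.exp (2 * x)) ^ s * Real.exp (-Real.exp (2 * x)) *
          (1 + Real.exp (2 * x)) ^ (q + 1) * (1 + Real.exp (2 * x)) * Real.exp x ≤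
          (1 + Real.exp (2 * x)) ^ n * Real.exp (-Real.exp (2 * x)) := by
        have e : (1 + Real.exp (2 * x)) ^ n * Real.exp (-Real.exp (2 * x)) =
            (1 + Real.exp (2 * x)) ^ s * Real.exp (-Real.exp (2 * x)) *
          (1 + Real.exp (2 * x)) ^ (q + 1) * (1 + Real.exp (2 * x)) *
            (1 + Real.exp (2 * x)) := by
          rw [hn]; ring
        rw [e]
        gcongr
        linarith
      have h4 : (1 + Real.exp (2 * x)) ^ n * Real.exp (-Real.exp (2 * x)) ≤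
          (n.factorial : ℝ) * Real.exp 1 := by
        have : (1 + Real.exp (2 * x)) ^ n * Real.exp (-Real.exp (2 * x)) ≤
            (Real.exp (1 + Real.exp (2 * x)) * (n.factorial : ℝ)) *
              Real.exp (-Real.exp (2 * x)) := by gcongr
        refine this.trans (le_of_eq ?_)
        rw [mul_right_comm, ← Real.exp_add]
        rw [show 1 + Real.exp (2 * x) + -Real.exp (2 * x) = 1 by ring]
        ring
      have h5 : th2 s q x * Real.exp x ≤ (n.factorial : ℝ) * Real.exp 1 := by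
        refine le_trans ?_ (h3.trans h4)
        have := (Real.exp_pos x).le
        gcongr
      have h6 : th2 s q x = (th2 s q x * Real.exp x) * Real.exp (-x) := by
        rw [mul_assoc, ← Real.exp_add]; simp
      rw [h6, abs_of_nonneg hx]
      have h7 : (th2 s q x * Real.exp x) * Real.exp (-x) ≤
          ((n.factorial : ℝ) * Real.exp 1) * Real.exp (-x) := by gcongr
      refine h7.trans ?_
      have h8 : (0 : ℝ) ≤ 2 ^ s * Real.exp (-x) := by positivity
      linarith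
  have h2 := one_add_sq_mul_exp x
  have h3 : (2 ^ s + (n.factorial : ℝ) * Real.exp 1) * Real.exp (-|x|) ≤
      (2 ^ s + (n.factorial : ℝ) * Real.exp 1) * (2 * (1 + x ^ 2)⁻¹) := by gcongr
  linarith

theorem th2_int (s q : ℕ) : Integrable (th2 s q) := by
  obtain ⟨K, hK, h⟩ := th2_le s q
  refine (integrable_inv_one_add_sq.const_mul K).mono' (th2_cont s q).aestronglyMeasurable
    (Eventually.of_forall fun x => ?_)
  rw [Real.norm_of_nonneg (th2_nn s q x)]
  exact h x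

theorem th1_int (s q : ℕ) : Integrable (th1 s q) := by
  refine (th2_int s q).mono' (th1_cont s q).aestronglyMeasurable
    (Eventually.of_forall fun x => ?_)
  rw [Real.norm_of_nonneg (th1_nn s q x)]
  exact th1_le_th2 s q x

/-! ### Potentials -/

variable {k : ℕ}

theorem nsq_cont {N : ℕ} : Continuous (nsq : (Fin N → ℂ) → ℝ) := by
  unfold nsq; fun_prop

theorem nsq_nn {N : ℕ} (z : Fin N → ℂ) : 0 ≤ nsq z := by
  unfold nsq; positivity

theorem nsq_pos {N : ℕ} {z : Fin N → ℂ} (hz : z ≠ 0) : 0 < nsq z := by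
  unfold nsq
  obtain ⟨i, hi⟩ := Function.ne_iff.1 hz
  refine Finset.sum_pos' (fun j _ => by positivity) ⟨i, Finset.mem_univ i, ?_⟩
  have : 0 < ‖z i‖ := norm_pos_iff.2 hi
  positivity

theorem exp_ell {N : ℕ} {z : Fin N → ℂ} (hz : z ≠ 0) : Real.exp (2 * ell z) = nsq z := by
  unfold ell
  rw [show 2 * (1 / 2 * Real.log (nsq z)) = Real.log (nsq z) by ring]
  exact Real.exp_log (nsq_pos hz)

theorem ell_meas {N : ℕ} : Measurable (ell : (Fin N → ℂ) → ℝ) := by
  unfold ell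
  exact (Real.measurable_log.comp nsq_cont.measurable).const_mul _

theorem nsq_smul {N : ℕ} (l : ℂ) (z : Fin N → ℂ) : nsq (l • z) = ‖l‖ ^ 2 * nsq z := by
  unfold nsq
  rw [Finset.mul_sum]
  refine Finset.sum_congr rfl fun i _ => ?_
  rw [Pi.smul_apply, smul_eq_mul, norm_mul, mul_pow]

theorem z0_le (z : Fin (k + 1) → ℂ) : ‖z 0‖ ^ 2 ≤ nsq z := by
  unfold nsq
  exact Finset.single_le_sum (f := fun i => ‖z i‖ ^ 2) (fun i _ => by positivity)
    (Finset.mem_univ 0)

theorem nsq_tl (z : Fin (k + 1) → ℂ) : nsq z = ‖z 0‖ ^ 2 + nsq (tl z) := by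
  unfold nsq tl
  rw [Fin.sum_univ_succ]

/-- The inner function of `wH`. -/
def inn (δ : ℝ) (z : Fin (k + 1) → ℂ) : ℝ := ‖z 0‖ ^ 2 + δ ^ 2 * nsq z

theorem inn_cont (δ : ℝ) : Continuous (inn δ : (Fin (k + 1) → ℂ) → ℝ) := by
  have := @nsq_cont (k + 1)
  unfold inn; fun_prop

theorem inn_pos {δ : ℝ} (hδ : 0 < δ) {z : Fin (k + 1) → ℂ} (hz : z ≠ 0) : 0 < inn δ z := by
  have := nsq_pos hz
  unfold inn
  positivity

theorem wH_eq (δ : ℝ) (z : Fin (k + 1) → ℂ) : wH δ z = 1 / 2 * Real.log (inn δ z) := rfl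

/-- `ell - wH`. -/
def vn (δ : ℝ) (z : Fin (k + 1) → ℂ) : ℝ := ell z - wH δ z

theorem vn_meas (δ : ℝ) : Measurable (vn δ : (Fin (k + 1) → ℂ) → ℝ) := by
  unfold vn
  refine ell_meas.sub ?_
  have : (wH δ : (Fin (k + 1) → ℂ) → ℝ) = fun z => 1 / 2 * Real.log (inn δ z) := rfl
  change Measurable (wH δ : (Fin (k + 1) → ℂ) → ℝ)
  rw [this]
  exact (Real.measurable_log.comp (inn_cont δ).measurable).const_mul _

theorem vn_cont {δ : ℝ} (hδ : 0 < δ) :
    ContinuousOn (vn δ : (Fin (k + 1) → ℂ) → ℝ) {0}ᶜ := by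
  have h1 : ContinuousOn (fun z : Fin (k + 1) → ℂ => 1 / 2 * Real.log (nsq z)) {0}ᶜ :=
    continuousOn_const.mul (nsq_cont.continuousOn.log fun z hz => (nsq_pos hz).ne')
  have h2 : ContinuousOn (fun z : Fin (k + 1) → ℂ => 1 / 2 * Real.log (inn δ z)) {0}ᶜ :=
    continuousOn_const.mul ((inn_cont δ).continuousOn.log fun z hz => (inn_pos hδ hz).ne')
  exact h1.sub h2

theorem vn_hom {δ : ℝ} (hδ : 0 < δ) (r : ℝ) (z : Fin (k + 1) → ℂ) (hr : 0 < r) (hz : z ≠ 0) :
    vn δ ((r : ℂ) • z) = vn δ z := by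
  have hn := nsq_pos hz
  have hi := inn_pos hδ hz
  have h1 : nsq ((r : ℂ) • z) = r ^ 2 * nsq z := by
    rw [nsq_smul]; simp [abs_of_pos hr]
  have h2 : inn δ ((r : ℂ) • z) = r ^ 2 * inn δ z := by
    unfold inn
    rw [h1, Pi.smul_apply, smul_eq_mul, norm_mul, mul_pow]
    have : ‖(r : ℂ)‖ ^ 2 = r ^ 2 := by simp [abs_of_pos hr]
    rw [this]; ring
  have hr2 : r ^ 2 ≠ 0 := by positivity
  unfold vn ell
  rw [wH_eq, wH_eq, h1, h2, Real.log_mul hr2 hn.ne', Real.log_mul hr2 hi.ne']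
  ring

theorem vn_ge {δ : ℝ} (hδ : 0 < δ) (hδ1 : δ ≤ 1) {z : Fin (k + 1) → ℂ} (hz : z ≠ 0) :
    -1 ≤ vn δ z := by
  have hn := nsq_pos hz
  have hi := inn_pos hδ hz
  have h1 : inn δ z ≤ 2 * nsq z := by
    have h0 := z0_le z
    have h2 : δ ^ 2 ≤ 1 := by nlinarith
    unfold inn
    nlinarith
  have h2 : Real.log (inn δ z) ≤ Real.log 2 + Real.log (nsq z) := by
    rw [← Real.log_mul (by norm_num) hn.ne']
    exact Real.log_le_log hi h1
  have h3 : Real.log 2 ≤ 1 := by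
    have := Real.log_two_lt_d9
    linarith
  unfold vn ell
  rw [wH_eq]
  linarith

theorem vn_lim {z : Fin (k + 1) → ℂ} (hz : z 0 ≠ 0) :
    Tendsto (fun n : ℕ => vn (1 / ((n : ℝ) + 1)) z) atTop (𝓝 (ell z - Real.log ‖z 0‖)) := by
  have h0 : 0 < ‖z 0‖ := norm_pos_iff.2 hz
  have h1 : Tendsto (fun n : ℕ => (1 / ((n : ℝ) + 1))) atTop (𝓝 0) :=
    tendsto_one_div_add_atTop_nhds_zero_nat
  have h2 : Tendsto (fun n : ℕ => inn (1 / ((n : ℝ) + 1)) z) atTop (𝓝 (‖z 0‖ ^ 2)) := by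
    have : Tendsto (fun n : ℕ => ‖z 0‖ ^ 2 + (1 / ((n : ℝ) + 1)) ^ 2 * nsq z) atTop
        (𝓝 (‖z 0‖ ^ 2 + 0 ^ 2 * nsq z)) :=
      tendsto_const_nhds.add ((h1.pow 2).mul tendsto_const_nhds)
    rw [show ‖z 0‖ ^ 2 + 0 ^ 2 * nsq z = ‖z 0‖ ^ 2 by ring] at this
    exact this
  have h3 : Tendsto (fun n : ℕ => 1 / 2 * Real.log (inn (1 / ((n : ℝ) + 1)) z)) atTop
      (𝓝 (1 / 2 * Real.log (‖z 0‖ ^ 2))) :=
    tendsto_const_nhds.mul (h2.log (by positivity))
  have h4 : 1 / 2 * Real.log (‖z 0‖ ^ 2) = Real.log ‖z 0‖ := by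
    rw [Real.log_pow]; push_cast; ring
  rw [h4] at h3
  exact tendsto_const_nhds.sub h3

theorem v_nn {z : Fin (k + 1) → ℂ} (hz : z 0 ≠ 0) : 0 ≤ ell z - Real.log ‖z 0‖ := by
  have h0 : 0 < ‖z 0‖ := norm_pos_iff.2 hz
  have h4 : 1 / 2 * Real.log (‖z 0‖ ^ 2) = Real.log ‖z 0‖ := by
    rw [Real.log_pow]; push_cast; ring
  have h1 : Real.log (‖z 0‖ ^ 2) ≤ Real.log (nsq z) :=
    Real.log_le_log (by positivity) (z0_le z)
  unfold ell
  linarith

theorem trF_nn {N p : ℕ} {S : Form (Fin N) p} (hS : ProjForm S) {Y : Fin N → ℂ} (hY : Y ≠ 0) :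
    0 ≤ trF (S Y) := by
  unfold trF
  refine Finset.sum_nonneg fun I _ => ?_
  have h := hS.cp.psd Y hY (Pi.single I 1)
  rw [Finset.sum_eq_single I, Finset.sum_eq_single I] at h
  · simp only [Pi.single_eq_same, one_mul, map_one] at h
    exact (Complex.nonneg_iff.1 h).1
  · intro J _ hJ
    rw [Pi.single_eq_of_ne hJ]; simp
  · intro hI; exact absurd (Finset.mem_univ I) hI
  · intro J _ hJ
    refine Finset.sum_eq_zero fun J' _ => ?_
    rw [Pi.single_eq_of_ne hJ]; simp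
  · intro hI; exact absurd (Finset.mem_univ I) hI

theorem ae_z0 : ∀ᵐ Y : Fin (k + 1) → ℂ, Y 0 ≠ 0 := by
  have h : ∀ᵐ z : ℂ, z ≠ 0 := by
    rw [ae_iff]
    simp
  have h2 := (Measure.quasiMeasurePreserving_eval (μ := fun _ : Fin (k + 1) =>
    (volume : Measure ℂ)) 0).ae h
  exact h2

/-! ### The main estimate -/

/-- The majorant. -/
def hn {q s : ℕ} (S : Form (Fin (k + 1)) (s + 1)) (C δ : ℝ) (Y : Fin (k + 1) → ℂ) : ℝ :=
  C * ((vn δ Y + 1) * Q S (fun _ : Fin q => ell) Y * th1 s q (1 * ell Y + 0) +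
    Q S (fun _ : Fin q => ell) Y * th2 s q (1 * ell Y + 0))

theorem pf_RSH (hRTR : T_RTR) (hRLA : T_RLA) (hS4 : T_S4) (hS5 : T_S5) (hP1 : T_P1)
    (_hP2 : T_P2) (hD7 : T_D7) (_hW9 : T_W9) (hL3 : T_L3) : T_RSH := by
  intro k s q hk
  have hN : (s + 1) + q + 1 = k + 1 := by omega
  obtain ⟨C1, hC1, hT⟩ := hRTR (k + 1) (s + 1) q hN
  obtain ⟨hLm, C2, hC2, hL⟩ := hRLA
  have hm : 0 < mass q (om (k + 1) (s + 1)) := ((hD7 (k + 1) (s + 1)).2 q hN).1
  set m := mass q (om (k + 1) (s + 1)) with hmdef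
  have hLH : ∀ _ : Fin q, LH (1 : ℝ) (ell : (Fin (k + 1) → ℂ) → ℝ) := fun _ =>
    ⟨(hL3 (k + 1)).1.smooth, fun l z hl hz => by rw [(hL3 (k + 1)).1.loghom l z hl hz, one_mul]⟩
  set I1 := ∫ t, th1 s q t with hI1
  set I2 := ∫ t, th2 s q t with hI2
  have hI1n : 0 ≤ I1 := integral_nonneg fun t => th1_nn s q t
  have hI2n : 0 ≤ I2 := integral_nonneg fun t => th2_nn s q t
  refine ⟨C1 * C2 * ((I1 + I2) * m) + 1, by positivity, fun S A hA hS hmS hLM => ?_⟩
  set C := C1 * C2 with hC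
  have hCp : 0 < C := mul_pos hC1 hC2
  set Qs : (Fin (k + 1) → ℂ) → ℝ := fun Y => Q S (fun _ : Fin q => ell) Y with hQs
  obtain ⟨hQc, hQh, -⟩ := hS5 (k + 1) (s + 1) q S (fun _ => ell) (fun _ => 1) hN hS hLH
  have hQm : Measurable Qs := measurable_of_continuousOn_compl_singleton 0 hQc
  have hQhr : ∀ (r : ℝ) (z : Fin (k + 1) → ℂ), 0 < r → z ≠ 0 →
      Qs ((r : ℂ) • z) = (r ^ (2 * (k + 1)))⁻¹ * Qs z := by
    intro r z hr hz
    have := hQh (r : ℂ) z (by exact_mod_cast hr.ne') hz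
    rw [Complex.norm_real, Real.norm_of_nonneg hr.le] at this
    exact this
  have hQn : ∀ Y : Fin (k + 1) → ℂ, Y ≠ 0 → 0 ≤ Qs Y := by
    intro Y hY
    have h1 := hT S hS Y hY
    have h2 := trF_nn hS hY
    have h3 : 0 < C1 * nsq Y ^ (k + 1 - (s + 1)) := by
      have := nsq_pos hY
      positivity
    by_contra hneg
    push Not at hneg
    have := mul_neg_of_pos_of_neg h3 hneg
    linarith
  have hP := (hP1 (k + 1) (s + 1) q S (fun _ => ell) (fun _ => 1) hN hS hLH).2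
  have hQi : IntegrableOn Qs {z : Fin (k + 1) → ℂ | 0 ≤ ell z ∧ ell z < 1} := by
    have := hP (fun _ => 1) continuousOn_const
    simpa using this
  -- the integrals of the majorants
  have hkey : ∀ δ : ℝ, 0 < δ → δ ≤ 1 → Integrable (hn (q := q) S C δ) ∧
      ∫ Y, hn (q := q) S C δ Y ≤ C * ((I1 + I2) * m) * (1 + A) := by
    intro δ hδ hδ1
    have hvi : IntegrableOn (fun z => (vn δ z + 1) * Qs z)
        {z : Fin (k + 1) → ℂ | 0 ≤ ell z ∧ ell z < 1} :=
      hP (fun z => vn δ z + 1) ((vn_cont hδ).add continuousOn_const)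
    have hvi' : IntegrableOn (fun z => vn δ z * Qs z)
        {z : Fin (k + 1) → ℂ | 0 ≤ ell z ∧ ell z < 1} :=
      hP (fun z => vn δ z) (vn_cont hδ)
    obtain ⟨a1, a2⟩ := hS4 (k + 1) (fun z => (vn δ z + 1) * Qs z) (fun _ => 0) 1 (th1 s q)
      (by omega) one_pos (((vn_meas δ).add_const 1).mul hQm) measurable_const hvi
      (fun r z hr hz => by
        rw [vn_hom hδ r z hr hz, hQhr r z hr hz]; ring)
      (fun _ _ _ _ => rfl) (th1_cont s q).measurable (th1_int s q)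
    obtain ⟨b1, b2⟩ := hS4 (k + 1) Qs (fun _ => 0) 1 (th2 s q)
      (by omega) one_pos hQm measurable_const hQi hQhr
      (fun _ _ _ _ => rfl) (th2_cont s q).measurable (th2_int s q)
    have hvI : Iint (fun z => (vn δ z + 1) * Qs z) ≤ (1 + A) * m := by
      have e1 : Iint (fun z => (vn δ z + 1) * Qs z) =
          pair (fun z => ell z - wH δ z) S (fun _ : Fin q => ell) + mass q S := by
        unfold mass pair Iint
        rw [← integral_add]
        · refine integral_congr_ae (Eventually.of_forall fun z => ?_)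
          simp only [hQs, vn]
          ring
        · exact hvi'
        · simp only [one_mul]
          exact hQi
      rw [e1, hmS]
      have := hLM δ hδ hδ1
      linarith
    have hQI : Iint Qs = m := by
      rw [← hmS]
      unfold mass pair
      congr 1
      funext z
      simp only [hQs, one_mul]
    refine ⟨(a1.add b1).const_mul C, ?_⟩
    have e : ∫ Y, hn (q := q) S C δ Y = C * ((∫ Y, (vn δ Y + 1) * Qs Y *
        th1 s q (1 * ell Y + 0)) + ∫ Y, Qs Y * th2 s q (1 * ell Y + 0)) := by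
      rw [← integral_add a1 b1, ← integral_const_mul]
      rfl
    rw [e, a2, b2, hQI, inv_one, one_mul, one_mul, ← hI1, ← hI2]
    have h5 : I1 * Iint (fun z => (vn δ z + 1) * Qs z) ≤ I1 * ((1 + A) * m) := by gcongr
    have h6 : I2 * m ≤ I2 * ((1 + A) * m) := by
      have : m ≤ (1 + A) * m := by nlinarith
      gcongr
    calc C * (I1 * Iint (fun z => (vn δ z + 1) * Qs z) + I2 * m)
        ≤ C * (I1 * ((1 + A) * m) + I2 * ((1 + A) * m)) := by gcongr
      _ = C * ((I1 + I2) * m) * (1 + A) := by ring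
  -- positivity and measurability
  have hnn : ∀ δ : ℝ, 0 < δ → δ ≤ 1 → ∀ Y : Fin (k + 1) → ℂ, Y ≠ 0 →
      0 ≤ hn (q := q) S C δ Y := by
    intro δ hδ hδ1 Y hY
    have h1 := vn_ge hδ hδ1 hY
    have h2 := hQn Y hY
    have h3 := th1_nn s q (1 * ell Y + 0)
    have h4 := th2_nn s q (1 * ell Y + 0)
    have h5 : 0 ≤ vn δ Y + 1 := by linarith
    unfold hn
    have h2' : 0 ≤ Q S (fun _ : Fin q => ell) Y := h2
    positivity
  have hmeas : ∀ δ : ℝ, Measurable (hn (q := q) S C δ) := by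
    intro δ
    have h1 : Measurable fun Y : Fin (k + 1) → ℂ => th1 s q (1 * ell Y + 0) :=
      (th1_cont s q).measurable.comp ((ell_meas.const_mul 1).add_const 0)
    have h2 : Measurable fun Y : Fin (k + 1) → ℂ => th2 s q (1 * ell Y + 0) :=
      (th2_cont s q).measurable.comp ((ell_meas.const_mul 1).add_const 0)
    exact (((((vn_meas δ).add_const 1).mul hQm).mul h1).add (hQm.mul h2)).const_mul C
  have hδn : ∀ n : ℕ, 0 < 1 / ((n : ℝ) + 1) ∧ 1 / ((n : ℝ) + 1) ≤ 1 := by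
    intro n
    refine ⟨by positivity, ?_⟩
    rw [div_le_one (by positivity)]
    have : (0 : ℝ) ≤ n := Nat.cast_nonneg n
    linarith
  have hbd : ∀ n : ℕ, ∫⁻ Y : Fin (k + 1) → ℂ,
      ENNReal.ofReal (hn (q := q) S C (1 / ((n : ℝ) + 1)) Y) ≤
      ENNReal.ofReal ((C * ((I1 + I2) * m) + 1) * (1 + A)) := by
    intro n
    obtain ⟨i1, i2⟩ := hkey _ (hδn n).1 (hδn n).2
    rw [← ofReal_integral_eq_lintegral_ofReal i1]
    · refine ENNReal.ofReal_le_ofReal (i2.trans ?_)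
      nlinarith
    · filter_upwards [ae_z0 (k := k)] with Y hY
      exact hnn _ (hδn n).1 (hδn n).2 Y fun h => hY (by rw [h]; rfl)
  -- the pointwise bound
  have hpt : ∀ Y : Fin (k + 1) → ℂ, Y 0 ≠ 0 → Lam (Y 0) *
      ENNReal.ofReal (Real.exp (-nsq (tl Y)) * (1 + nsq (tl Y)) ^ s) *
      ENNReal.ofReal (trF (S Y)) ≤ liminf (fun n : ℕ =>
        ENNReal.ofReal (hn (q := q) S C (1 / ((n : ℝ) + 1)) Y)) atTop := by
    intro Y hY0
    have hY : Y ≠ 0 := fun h => hY0 (by rw [h]; rfl)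
    have hn0 := nsq_pos hY
    have hlim : Tendsto (fun n : ℕ => hn (q := q) S C (1 / ((n : ℝ) + 1)) Y) atTop
        (𝓝 (C * (((ell Y - Real.log ‖Y 0‖) + 1) * Qs Y * th1 s q (1 * ell Y + 0) +
          Qs Y * th2 s q (1 * ell Y + 0)))) := by
      unfold hn
      exact tendsto_const_nhds.mul (((((vn_lim hY0).add_const 1).mul_const _).mul_const _).add
        tendsto_const_nhds)
    have hlim2 := (ENNReal.continuous_ofReal.tendsto _).comp hlim
    have hlim3 := hlim2.liminf_eq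
    change _ ≤ liminf (ENNReal.ofReal ∘ fun n : ℕ =>
      hn (q := q) S C (1 / ((n : ℝ) + 1)) Y) atTop
    rw [hlim3]
    have h1 := hL (Y 0) hY0
    have h2 := hT S hS Y hY
    have hsub : k + 1 - (s + 1) = q + 1 := by omega
    rw [hsub] at h2
    have h3 : Lam (Y 0) * ENNReal.ofReal (Real.exp (-nsq (tl Y)) * (1 + nsq (tl Y)) ^ s) *
        ENNReal.ofReal (trF (S Y)) ≤
        ENNReal.ofReal (C2 * Real.exp (-‖Y 0‖ ^ 2) * (1 + max 0 (-Real.log ‖Y 0‖))) *
        ENNReal.ofReal (Real.exp (-nsq (tl Y)) * (1 + nsq (tl Y)) ^ s) *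
        ENNReal.ofReal (C1 * nsq Y ^ (q + 1) * Qs Y) := by
      gcongr
    refine h3.trans ?_
    have hmx : 0 ≤ max 0 (-Real.log ‖Y 0‖) := le_max_left _ _
    have htl := nsq_nn (tl Y)
    have hQY := hQn Y hY
    have p1 : 0 ≤ C2 * Real.exp (-‖Y 0‖ ^ 2) * (1 + max 0 (-Real.log ‖Y 0‖)) := by positivity
    have p2 : 0 ≤ C2 * Real.exp (-‖Y 0‖ ^ 2) * (1 + max 0 (-Real.log ‖Y 0‖)) *
        (Real.exp (-nsq (tl Y)) * (1 + nsq (tl Y)) ^ s) := by positivity
    rw [← ENNReal.ofReal_mul p1, ← ENNReal.ofReal_mul p2]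
    refine ENNReal.ofReal_le_ofReal ?_
    have hvY := v_nn hY0
    have hmx2 : max 0 (-Real.log ‖Y 0‖) ≤ (ell Y - Real.log ‖Y 0‖) + |ell Y| := by
      have ha := neg_abs_le (ell Y)
      refine max_le ?_ ?_
      · have := abs_nonneg (ell Y)
        linarith
      · linarith
    have hth : th1 s q (1 * ell Y + 0) =
        (1 + nsq Y) ^ s * Real.exp (-nsq Y) * nsq Y ^ (q + 1) := by
      unfold th1
      rw [one_mul, add_zero, exp_ell hY]
    have hexp : Real.exp (-‖Y 0‖ ^ 2) * Real.exp (-nsq (tl Y)) = Real.exp (-nsq Y) := by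
      rw [← Real.exp_add, nsq_tl Y]
      congr 1
      ring
    have htle : (1 + nsq (tl Y)) ^ s ≤ (1 + nsq Y) ^ s := by
      have h : nsq (tl Y) ≤ nsq Y := by
        rw [nsq_tl Y]
        have : 0 ≤ ‖Y 0‖ ^ 2 := by positivity
        linarith
      gcongr
    set W := (1 + nsq Y) ^ s * Real.exp (-nsq Y) * nsq Y ^ (q + 1) with hW
    have hWn : 0 ≤ W := by positivity
    calc C2 * Real.exp (-‖Y 0‖ ^ 2) * (1 + max 0 (-Real.log ‖Y 0‖)) *
          (Real.exp (-nsq (tl Y)) * (1 + nsq (tl Y)) ^ s) * (C1 * nsq Y ^ (q + 1) * Qs Y)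
        = C * ((1 + nsq (tl Y)) ^ s * (Real.exp (-‖Y 0‖ ^ 2) * Real.exp (-nsq (tl Y))) *
          nsq Y ^ (q + 1)) * Qs Y * (1 + max 0 (-Real.log ‖Y 0‖)) := by rw [hC]; ring
      _ ≤ C * ((1 + nsq Y) ^ s * (Real.exp (-‖Y 0‖ ^ 2) * Real.exp (-nsq (tl Y))) *
          nsq Y ^ (q + 1)) * Qs Y * (1 + ((ell Y - Real.log ‖Y 0‖) + |ell Y|)) := by
          gcongr
      _ = C * W * Qs Y * (1 + ((ell Y - Real.log ‖Y 0‖) + |ell Y|)) := by rw [hexp]
      _ ≤ C * W * Qs Y * ((ell Y - Real.log ‖Y 0‖) + 1 + (1 + |ell Y|)) :=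
          mul_le_mul_of_nonneg_left (by linarith) (by positivity)
      _ = C * (((ell Y - Real.log ‖Y 0‖) + 1) * Qs Y * th1 s q (1 * ell Y + 0) +
          Qs Y * th2 s q (1 * ell Y + 0)) := by
          unfold th2
          rw [hth, one_mul, add_zero]
          ring
  calc ∫⁻ Y : Fin (k + 1) → ℂ, Lam (Y 0) *
        ENNReal.ofReal (Real.exp (-nsq (tl Y)) * (1 + nsq (tl Y)) ^ s) *
        ENNReal.ofReal (trF (S Y))
      ≤ ∫⁻ Y : Fin (k + 1) → ℂ, liminf (fun n : ℕ =>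
        ENNReal.ofReal (hn (q := q) S C (1 / ((n : ℝ) + 1)) Y)) atTop := by
        refine lintegral_mono_ae ?_
        filter_upwards [ae_z0 (k := k)] with Y hY
        exact hpt Y hY
    _ ≤ liminf (fun n : ℕ => ∫⁻ Y : Fin (k + 1) → ℂ,
        ENNReal.ofReal (hn (q := q) S C (1 / ((n : ℝ) + 1)) Y)) atTop :=
        lintegral_liminf_le fun n => (hmeas _).ennreal_ofReal
    _ ≤ liminf (fun _ : ℕ => ENNReal.ofReal ((C * ((I1 + I2) * m) + 1) * (1 + A))) atTop :=
        liminf_le_liminf (Eventually.of_forall hbd)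
    _ = ENNReal.ofReal ((C * ((I1 + I2) * m) + 1) * (1 + A)) := liminf_const _

end

end Pool.Agent.H74.EHD
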